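import Mathlib

/-!
# A kernel map that does not extend over the blow-up set

We consider the Seiberg-Witten equations with `n` spinors on the flat torus `T³ = ℝ³ / ℤ³` with
the trivial spin structure: the spinor bundle is trivial with fibre `ℂ²`, and so are the line
bundle `L` and the bundle `E` with fibre `ℂⁿ`. Objects on the torus are given by `ℤ³`-periodic
objects on `ℝ³`.

Let `e₁, e₂, e₃` be the matrices of the Clifford multiplication, which multiply like the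
quaternion units. The `2 × 4` matrix
`Ψ(x) = (√3 (x₁ e₁ - x₂ e₂), x₁ e₁ + x₂ e₂ - 2 x₃ e₃)`
consists of four harmonic spinors on `ℝ³`, and `Ψ Ψᴴ = 4 |x|²`. Its kernel only depends on the
direction of `x` and is not constant, so it has no limit at the origin. We extend `Ψ` to a map
from the torus to pairs of quaternions that vanishes only at the origin. Such a map satisfies the
Dirac equation for some connection `B`, which is given by a rational expression in `Ψ` and its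
Dirac derivative and hence vanishes near the origin.
-/

set_option autoImplicit false

open Set Filter Topology Matrix Complex MeasureTheory
open scoped ContDiff

namespace Pool.Agent.Results.MP_92a303_gt.PointBlowUpSet

/-- The map `F` on `ℝ³` is invariant under `ℤ³`: it is a map on the torus `T³ = ℝ³ / ℤ³`. -/
def Per {α : Type} (F : (Fin 3 → ℝ) → α) : Prop :=
  ∀ (x : Fin 3 → ℝ) (v : Fin 3 → ℤ), F (x + fun j => (v j : ℝ)) = F x

/-- Clifford multiplication by the orthonormal frame `∂₁, ∂₂, ∂₃` of the flat torus on the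
trivial spinor bundle with fibre `ℂ²`: the Pauli matrices times `-i`. -/
def cl : Fin 3 → Matrix (Fin 2) (Fin 2) ℂ :=
  ![!![0, -I; -I, 0], !![0, -1; 1, 0], !![-I, 0; 0, I]]

/-- The partial derivative `∂_j` of a matrix valued map, entry by entry. -/
noncomputable def pd {m n : ℕ} (j : Fin 3) (F : (Fin 3 → ℝ) → Matrix (Fin m) (Fin n) ℂ)
    (x : Fin 3 → ℝ) : Matrix (Fin m) (Fin n) ℂ :=
  Matrix.of fun a b => fderiv ℝ (fun y => F y a b) x (Pi.single j 1)

/-- The covariant derivative `∇_j Ψ = ∂_j Ψ + i A_j Ψ - Ψ B_j` of a section `Ψ` of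
`Hom(E, S ⊗ L)`, for the connection `i ∑ A_j dx_j` on the trivial line bundle `L` and the
connection `∑ B_j dx_j` on the trivial bundle `E` with fibre `ℂⁿ`. -/
noncomputable def cov {n : ℕ} (A : Fin 3 → (Fin 3 → ℝ) → ℝ)
    (B : Fin 3 → (Fin 3 → ℝ) → Matrix (Fin n) (Fin n) ℂ)
    (Ψ : (Fin 3 → ℝ) → Matrix (Fin 2) (Fin n) ℂ) (j : Fin 3) (x : Fin 3 → ℝ) :
    Matrix (Fin 2) (Fin n) ℂ :=
  pd j Ψ x + (I * (A j x : ℂ)) • Ψ x - Ψ x * B j x

/-- The twisted Dirac operator `D Ψ = ∑_j c(∂_j) ∇_j Ψ`. -/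
noncomputable def dirac {n : ℕ} (A : Fin 3 → (Fin 3 → ℝ) → ℝ)
    (B : Fin 3 → (Fin 3 → ℝ) → Matrix (Fin n) (Fin n) ℂ)
    (Ψ : (Fin 3 → ℝ) → Matrix (Fin 2) (Fin n) ℂ) (x : Fin 3 → ℝ) : Matrix (Fin 2) (Fin n) ℂ :=
  ∑ j, cl j * cov A B Ψ j x

/-- The square of the norm of an element of `Hom(ℂⁿ, ℂ²)`. -/
noncomputable def nsq {n : ℕ} (M : Matrix (Fin 2) (Fin n) ℂ) : ℝ := ∑ a, ∑ b, ‖M a b‖ ^ 2

/-- `∑ B_j dx_j` is a smooth connection on the trivial `SU(n)`-bundle over the torus. -/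
structure IsConnection {n : ℕ} (B : Fin 3 → (Fin 3 → ℝ) → Matrix (Fin n) (Fin n) ℂ) : Prop where
  smooth : ∀ j a b, ContDiff ℝ ∞ fun x => B j x a b
  periodic : ∀ j, Per (B j)
  skew : ∀ j x, (B j x)ᴴ = -B j x
  trace_zero : ∀ j x, (B j x).trace = 0

/-- `(A, Ψ, 0)` is a solution over the complement of `Z` of the blown-up Seiberg-Witten equations
for the flat torus and the connection `B`. -/
structure IsSolution {n : ℕ} (B : Fin 3 → (Fin 3 → ℝ) → Matrix (Fin n) (Fin n) ℂ)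
    (Z : Set (Fin 3 → ℝ)) (A : Fin 3 → (Fin 3 → ℝ) → ℝ)
    (Ψ : (Fin 3 → ℝ) → Matrix (Fin 2) (Fin n) ℂ) : Prop where
  Z_closed : IsClosed Z
  Z_nowhere_dense : interior Z = ∅
  Z_periodic : Per fun x => x ∈ Z
  A_smooth : ∀ j, ContDiffOn ℝ ∞ (A j) Zᶜ
  A_periodic : ∀ j, Per (A j)
  smooth : ∀ a b, ContDiffOn ℝ ∞ (fun x => Ψ x a b) Zᶜ
  periodic : Per Ψ
  /-- the `L²` norm of `Ψ` is one -/
  norm_one : ∫ x in Icc (0 : Fin 3 → ℝ) 1, nsq (Ψ x) = 1
  /-- the Dirac equation -/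
  dirac_zero : ∀ x, x ∉ Z → dirac A B Ψ x = 0
  /-- the equation `μ(Ψ) = 0` -/
  mu_zero : ∀ x, x ∉ Z → Ψ x * (Ψ x)ᴴ - ((nsq (Ψ x) / 2 : ℝ) : ℂ) • (1 : Matrix _ _ ℂ) = 0
  /-- the function `|Ψ|` extends continuously to the torus, with zero set `Z` -/
  norm_extends : ∃ N : (Fin 3 → ℝ) → ℝ, Continuous N ∧ Per N ∧
    (∀ x, x ∉ Z → N x = √(nsq (Ψ x))) ∧ ∀ x, N x = 0 ↔ x ∈ Z

/-- `P` is the matrix of the orthogonal projection of `ℂⁿ` to the kernel of `M`. -/
def IsKerProj {n : ℕ} (M : Matrix (Fin 2) (Fin n) ℂ) (P : Matrix (Fin n) (Fin n) ℂ) : Prop :=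
  P * P = P ∧ Pᴴ = P ∧ ∀ v : Fin n → ℂ, M *ᵥ v = 0 ↔ P *ᵥ v = v

/-- The map `x ↦ ker Ψ_x` from the complement of `Z` to the Grassmannian extends continuously to
the torus. Here a linear subspace of `ℂⁿ` is given by the orthogonal projection to it. -/
def KernelMapExtends {n : ℕ} (Z : Set (Fin 3 → ℝ))
    (Ψ : (Fin 3 → ℝ) → Matrix (Fin 2) (Fin n) ℂ) : Prop :=
  ∃ P : (Fin 3 → ℝ) → Matrix (Fin n) (Fin n) ℂ, Continuous P ∧ Per P ∧
    ∀ x, x ∉ Z → IsKerProj (Ψ x) (P x)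

/-- The lattice `ℤ³`, which is one point of the torus. -/
def origin : Set (Fin 3 → ℝ) := {x | ∃ v : Fin 3 → ℤ, x = fun j => (v j : ℝ)}

/-! ### Quaternionic matrices -/

/-- A row of two quaternions as a complex matrix. -/
noncomputable def mk (q : Fin 8 → ℝ) : Matrix (Fin 2) (Fin 4) ℂ :=
  !![q 0 - I * q 3, -q 2 - I * q 1, q 4 - I * q 7, -q 6 - I * q 5;
    q 2 - I * q 1, q 0 + I * q 3, q 6 - I * q 5, q 4 + I * q 7]

/-- The Dirac operator in terms of the components; `d j i` is the `j`-th derivative of `q i`. -/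
def xc (d : Fin 3 → Fin 8 → ℝ) : Fin 8 → ℝ :=
  ![-(d 0 1 + d 1 2 + d 2 3), d 0 0 + d 1 3 - d 2 2, d 1 0 + d 2 1 - d 0 3, d 2 0 + d 0 2 - d 1 1,
    -(d 0 5 + d 1 6 + d 2 7), d 0 4 + d 1 7 - d 2 6, d 1 4 + d 2 5 - d 0 7, d 2 4 + d 0 6 - d 1 5]

theorem sum_cl_mk (d : Fin 3 → Fin 8 → ℝ) : ∑ j, cl j * mk (d j) = mk (xc d) := by
  ext a b
  fin_cases a <;> fin_cases b <;>
    simp [Fin.sum_univ_three, cl, mk, xc] <;>
    ring_nf <;> simp [I_sq] <;> ring

theorem mk_mul_conj (q : Fin 8 → ℝ) :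
    mk q * (mk q)ᴴ = ((∑ i, q i ^ 2 : ℝ) : ℂ) • (1 : Matrix _ _ ℂ) := by
  ext a b
  fin_cases a <;> fin_cases b <;>
    simp [Fin.sum_univ_eight, mk, Matrix.mul_apply, Fin.sum_univ_four] <;>
    ring_nf <;> simp [I_sq] <;> ring


/-- A quaternion as a complex matrix. -/
noncomputable def qm (a b c d : ℝ) : Matrix (Fin 2) (Fin 2) ℂ :=
  !![a - I * d, -c - I * b; c - I * b, a + I * d]

theorem mk_mul (p q : Fin 8 → ℝ) : mk p * (mk q)ᴴ =
    qm (p 0 * q 0 + p 1 * q 1 + p 2 * q 2 + p 3 * q 3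
        + p 4 * q 4 + p 5 * q 5 + p 6 * q 6 + p 7 * q 7)
      (-p 0 * q 1 + p 1 * q 0 - p 2 * q 3 + p 3 * q 2
        - p 4 * q 5 + p 5 * q 4 - p 6 * q 7 + p 7 * q 6)
      (-p 0 * q 2 + p 2 * q 0 - p 3 * q 1 + p 1 * q 3
        - p 4 * q 6 + p 6 * q 4 - p 7 * q 5 + p 5 * q 7)
      (-p 0 * q 3 + p 3 * q 0 - p 1 * q 2 + p 2 * q 1
        - p 4 * q 7 + p 7 * q 4 - p 5 * q 6 + p 6 * q 5) := by
  ext a b
  fin_cases a <;> fin_cases b <;>
    simp [mk, qm, Matrix.mul_apply, Fin.sum_univ_four] <;>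
    ring_nf <;> simp [I_sq] <;> ring

/-- The products of the quaternionic matrices are quaternions. -/
theorem quat (p q : Fin 8 → ℝ) : ∃ r : ℝ,
    cl 0 * (mk p * (mk q)ᴴ) + (cl 0 * (mk p * (mk q)ᴴ))ᴴ = (r : ℂ) • (1 : Matrix _ _ ℂ) ∧
      (cl 0 * (mk p * (mk q)ᴴ)).trace = r := by
  rw [mk_mul]
  generalize (p 0 * q 0 + p 1 * q 1 + p 2 * q 2 + p 3 * q 3
        + p 4 * q 4 + p 5 * q 5 + p 6 * q 6 + p 7 * q 7) = a
  generalize (-p 0 * q 1 + p 1 * q 0 - p 2 * q 3 + p 3 * q 2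
        - p 4 * q 5 + p 5 * q 4 - p 6 * q 7 + p 7 * q 6) = b
  generalize (-p 0 * q 2 + p 2 * q 0 - p 3 * q 1 + p 1 * q 3
        - p 4 * q 6 + p 6 * q 4 - p 7 * q 5 + p 5 * q 7) = c
  generalize (-p 0 * q 3 + p 3 * q 0 - p 1 * q 2 + p 2 * q 1
        - p 4 * q 7 + p 7 * q 4 - p 5 * q 6 + p 6 * q 5) = d
  refine ⟨-2 * b, ?_, ?_⟩
  · ext a b
    fin_cases a <;> fin_cases b <;> simp [cl, qm] <;> ring_nf <;> simp [I_sq]
  · simp [cl, qm, Matrix.trace]
    ring_nf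
    simp [I_sq]

section algebra

variable {n : ℕ}

/-- The coefficients of the connection `B` in terms of the inverse `k` of `|Ψ|² / 2`. -/
noncomputable def b0 (k : ℂ) (Ψ X : Matrix (Fin 2) (Fin n) ℂ) : Matrix (Fin n) (Fin n) ℂ :=
  -(k • (Ψᴴ * (cl 0 * X) - (Ψᴴ * (cl 0 * X))ᴴ))
    + (k ^ 2 / 2) • (Ψᴴ * (cl 0 * (X * Ψᴴ) - (cl 0 * (X * Ψᴴ))ᴴ) * Ψ)

/-- The second coefficient. -/
noncomputable def b1 (k : ℂ) (Ψ X : Matrix (Fin 2) (Fin n) ℂ) : Matrix (Fin n) (Fin n) ℂ :=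
  -((k ^ 2 / 2 * (cl 0 * (X * Ψᴴ)).trace) • (Ψᴴ * cl 2 * Ψ))

/-- The connection. -/
noncomputable def bm (k : ℂ) (Ψ X : Matrix (Fin 2) (Fin n) ℂ) :
    Fin 3 → Matrix (Fin n) (Fin n) ℂ :=
  ![b0 k Ψ X, b1 k Ψ X, 0]

theorem cl0_conj : (cl 0)ᴴ = -cl 0 := by
  ext a b
  fin_cases a <;> fin_cases b <;> simp [cl]

theorem cl2_conj : (cl 2)ᴴ = -cl 2 := by
  ext a b
  fin_cases a <;> fin_cases b <;> simp [cl]

theorem cl0_sq : cl 0 * cl 0 = -1 := by
  ext a b
  fin_cases a <;> fin_cases b <;> simp [cl]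

theorem cl1_cl2 : cl 1 * cl 2 = cl 0 := by
  ext a b
  fin_cases a <;> fin_cases b <;> simp [cl]

theorem cl2_trace : (cl 2).trace = 0 := by
  simp [cl, Matrix.trace]

variable {Ψ X : Matrix (Fin 2) (Fin n) ℂ} {k r : ℝ} {h : ℝ}

theorem bm_skew (hr : (cl 0 * (X * Ψᴴ)).trace = r) (j : Fin 3) :
    (bm (k : ℂ) Ψ X j)ᴴ = -bm (k : ℂ) Ψ X j := by
  fin_cases j
  · simp only [bm, b0, Fin.zero_eta, Fin.isValue, Matrix.cons_val_zero]
    simp only [conjTranspose_add, conjTranspose_neg, conjTranspose_smul, conjTranspose_sub,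
      conjTranspose_conjTranspose, conjTranspose_mul]
    have h1 : star (k : ℂ) = k := by simp
    have h2 : star ((k : ℂ) ^ 2 / 2) = (k : ℂ) ^ 2 / 2 := by simp
    rw [h1, h2]
    simp only [Matrix.mul_assoc, Matrix.sub_mul, Matrix.mul_sub]
    simp only [smul_sub]
    abel
  · simp only [bm, b1, Fin.mk_one, Fin.isValue, Matrix.cons_val_one, Matrix.cons_val_zero, hr]
    simp only [conjTranspose_neg, conjTranspose_smul, 
      conjTranspose_conjTranspose, conjTranspose_mul, cl2_conj]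
    have h2 : star ((k : ℂ) ^ 2 / 2 * r) = (k : ℂ) ^ 2 / 2 * r := by simp
    rw [h2]
    simp only [Matrix.neg_mul, Matrix.mul_neg, Matrix.mul_assoc, smul_neg]
  · simp [bm]

theorem bm_trace (hr : (cl 0 * (X * Ψᴴ)).trace = r)
    (hh : Ψ * Ψᴴ = (h : ℂ) • (1 : Matrix _ _ ℂ)) (j : Fin 3) :
    (bm (k : ℂ) Ψ X j).trace = 0 := by
  fin_cases j
  · simp only [bm, b0, Fin.zero_eta, Fin.isValue, Matrix.cons_val_zero]
    have h1 : (Ψᴴ * (cl 0 * X)).trace = r := by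
      rw [Matrix.trace_mul_comm, Matrix.mul_assoc, hr]
    have h2 : (Ψᴴ * (cl 0 * (X * Ψᴴ) - (cl 0 * (X * Ψᴴ))ᴴ) * Ψ).trace = 0 := by
      rw [Matrix.trace_mul_comm, ← Matrix.mul_assoc, hh, Matrix.smul_mul, Matrix.one_mul,
        Matrix.trace_smul, Matrix.trace_sub, Matrix.trace_conjTranspose, hr]
      simp
    rw [Matrix.trace_add, Matrix.trace_neg, Matrix.trace_smul, Matrix.trace_smul, h2,
      Matrix.trace_sub, Matrix.trace_conjTranspose, h1]
    simp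
  · simp only [bm, b1, Fin.mk_one, Fin.isValue, Matrix.cons_val_one, Matrix.cons_val_zero]
    rw [Matrix.trace_neg, Matrix.trace_smul, Matrix.mul_assoc, Matrix.trace_mul_comm Ψᴴ,
      Matrix.mul_assoc, hh, Matrix.mul_smul, Matrix.mul_one, Matrix.trace_smul, cl2_trace]
    simp
  · simp [bm]

theorem bm_eq (hr : (cl 0 * (X * Ψᴴ)).trace = r)
    (hr' : cl 0 * (X * Ψᴴ) + (cl 0 * (X * Ψᴴ))ᴴ = (r : ℂ) • (1 : Matrix _ _ ℂ))
    (hh : Ψ * Ψᴴ = (h : ℂ) • (1 : Matrix _ _ ℂ)) (hk : k * h = 1) :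
    ∑ j, cl j * (Ψ * bm (k : ℂ) Ψ X j) = X := by
  have hk' : (k : ℂ) * h = 1 := by exact_mod_cast hk
  have hkk : ((k : ℂ) ^ 2 / 2) * h = k / 2 := by
    rw [sq, mul_div_assoc, mul_assoc]
    have : (k : ℂ) / 2 * h = 1 / 2 := by rw [← hk']; ring
    rw [this]; ring
  have hconj : (cl 0 * (X * Ψᴴ))ᴴ = (r : ℂ) • (1 : Matrix _ _ ℂ) - cl 0 * (X * Ψᴴ) := by
    rw [← hr']; abel
  have e1 : Ψ * (Ψᴴ * (cl 0 * X)) = (h : ℂ) • (cl 0 * X) := by
    rw [← Matrix.mul_assoc, hh, Matrix.smul_mul, Matrix.one_mul]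
  have e2 : Ψ * (Ψᴴ * (cl 0 * X))ᴴ = (cl 0 * (X * Ψᴴ))ᴴ * Ψ := by
    simp only [conjTranspose_mul, conjTranspose_conjTranspose, cl0_conj, Matrix.mul_assoc]
  have e3 : Ψ * (Ψᴴ * (cl 0 * (X * Ψᴴ) - (cl 0 * (X * Ψᴴ))ᴴ) * Ψ) =
      (h : ℂ) • ((cl 0 * (X * Ψᴴ) - (cl 0 * (X * Ψᴴ))ᴴ) * Ψ) := by
    rw [← Matrix.mul_assoc, ← Matrix.mul_assoc, hh]
    simp only [Matrix.smul_mul, Matrix.one_mul]
  have e4 : Ψ * (Ψᴴ * cl 2 * Ψ) = (h : ℂ) • (cl 2 * Ψ) := by
    rw [← Matrix.mul_assoc, ← Matrix.mul_assoc, hh]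
    simp only [Matrix.smul_mul, Matrix.one_mul]
  have f0 : Ψ * b0 (k : ℂ) Ψ X = -(cl 0 * X) + (k * r / 2 : ℂ) • Ψ := by
    rw [b0, Matrix.mul_add, Matrix.mul_neg, Matrix.mul_smul, Matrix.mul_smul, Matrix.mul_sub,
      e1, e2, e3, hconj, smul_smul, hkk]
    simp only [smul_sub, Matrix.sub_mul, Matrix.smul_mul, Matrix.one_mul, smul_smul, hk', one_smul]
    module
  have f1 : Ψ * b1 (k : ℂ) Ψ X = -((k * r / 2 : ℂ) • (cl 2 * Ψ)) := by
    rw [b1, Matrix.mul_neg, Matrix.mul_smul, e4, smul_smul, hr]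
    congr 2
    calc (k : ℂ) ^ 2 / 2 * r * h = (k : ℂ) ^ 2 / 2 * h * r := by ring
      _ = _ := by rw [hkk]; ring
  rw [Fin.sum_univ_three]
  simp only [bm, Fin.isValue, Matrix.cons_val_zero, Matrix.cons_val_one, Matrix.cons_val_two,
    Matrix.tail_cons, Matrix.head_cons, Matrix.mul_zero, add_zero]
  rw [f0, f1, Matrix.mul_add, Matrix.mul_neg, Matrix.mul_neg, Matrix.mul_smul, Matrix.mul_smul,
    ← Matrix.mul_assoc, cl0_sq, ← Matrix.mul_assoc, cl1_cl2]
  simp only [Matrix.neg_mul, Matrix.one_mul, neg_neg]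
  abel

end algebra

/-! ### Smooth matrix valued maps -/

/-- The entries of `F` are smooth at `x`. -/
def Sm {m n : ℕ} (F : (Fin 3 → ℝ) → Matrix (Fin m) (Fin n) ℂ) (x : Fin 3 → ℝ) : Prop :=
  ∀ a b, ContDiffAt ℝ ∞ (fun y => F y a b) x

section smooth

variable {l m n : ℕ} {x : Fin 3 → ℝ}

theorem Sm.mul {F : (Fin 3 → ℝ) → Matrix (Fin l) (Fin m) ℂ}
    {G : (Fin 3 → ℝ) → Matrix (Fin m) (Fin n) ℂ} (hF : Sm F x) (hG : Sm G x) :
    Sm (fun y => F y * G y) x := by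
  intro a b
  simp only [Matrix.mul_apply]
  exact ContDiffAt.sum fun i _ => (hF a i).mul (hG i b)

theorem Sm.add {F G : (Fin 3 → ℝ) → Matrix (Fin m) (Fin n) ℂ} (hF : Sm F x) (hG : Sm G x) :
    Sm (fun y => F y + G y) x := fun a b => (hF a b).add (hG a b)

theorem Sm.sub {F G : (Fin 3 → ℝ) → Matrix (Fin m) (Fin n) ℂ} (hF : Sm F x) (hG : Sm G x) :
    Sm (fun y => F y - G y) x := fun a b => (hF a b).sub (hG a b)

theorem Sm.neg {F : (Fin 3 → ℝ) → Matrix (Fin m) (Fin n) ℂ} (hF : Sm F x) :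
    Sm (fun y => -F y) x := fun a b => (hF a b).neg

theorem Sm.const (M : Matrix (Fin m) (Fin n) ℂ) : Sm (fun _ => M) x := fun _ _ => contDiffAt_const

theorem Sm.smul {F : (Fin 3 → ℝ) → Matrix (Fin m) (Fin n) ℂ} {k : (Fin 3 → ℝ) → ℂ}
    (hk : ContDiffAt ℝ ∞ k x) (hF : Sm F x) : Sm (fun y => k y • F y) x :=
  fun a b => hk.mul (hF a b)

theorem Sm.conj {F : (Fin 3 → ℝ) → Matrix (Fin m) (Fin n) ℂ} (hF : Sm F x) :
    Sm (fun y => (F y)ᴴ) x := fun a b => by
  have h : ContDiff ℝ ∞ (fun z : ℂ => star z) := Complex.conjCLE.contDiff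
  exact h.contDiffAt.comp x (hF b a)

theorem Sm.trace {F : (Fin 3 → ℝ) → Matrix (Fin m) (Fin m) ℂ} (hF : Sm F x) :
    ContDiffAt ℝ ∞ (fun y => (F y).trace) x := by
  simp only [Matrix.trace, Matrix.diag]
  exact ContDiffAt.sum fun i _ => hF i i

theorem sm_bm {Ψ X : (Fin 3 → ℝ) → Matrix (Fin 2) (Fin n) ℂ} {k : (Fin 3 → ℝ) → ℂ}
    (hk : ContDiffAt ℝ ∞ k x) (hΨ : Sm Ψ x) (hX : Sm X x) (j : Fin 3) :
    Sm (fun y => bm (k y) (Ψ y) (X y) j) x := by
  have h2 : ContDiffAt ℝ ∞ (fun y => k y ^ 2 / 2) x := (hk.pow 2).div_const 2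
  have hM : Sm (fun y => cl 0 * (X y * (Ψ y)ᴴ)) x := (Sm.const _).mul (hX.mul hΨ.conj)
  have hN : Sm (fun y => (Ψ y)ᴴ * (cl 0 * X y)) x := hΨ.conj.mul ((Sm.const _).mul hX)
  fin_cases j
  · exact ((Sm.smul hk (hN.sub hN.conj)).neg).add
      (Sm.smul h2 ((hΨ.conj.mul (hM.sub hM.conj)).mul hΨ))
  · exact (Sm.smul (h2.mul hM.trace) ((hΨ.conj.mul (Sm.const _)).mul hΨ)).neg
  · exact Sm.const 0

end smooth

/-! ### The functions of one variable -/

/-- A periodic function that is `t` near `0`. -/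
noncomputable def bb (t : ℝ) : ℝ :=
  Real.smoothTransition (4 * Real.cos (2 * Real.pi * t) - 1) *
    (Real.arcsin (Real.sin (2 * Real.pi * t)) / (2 * Real.pi))

/-- A periodic function that vanishes near `0`. -/
noncomputable def kk (t : ℝ) : ℝ := expNegInvGlue (1 / 2 - Real.cos (2 * Real.pi * t))

theorem contDiff_lin : ContDiff ℝ ∞ fun t : ℝ => 2 * Real.pi * t := contDiff_const.mul contDiff_id

theorem contDiff_kk : ContDiff ℝ ∞ kk :=
  expNegInvGlue.contDiff.comp (contDiff_const.sub (Real.contDiff_cos.comp contDiff_lin))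

theorem contDiff_bb : ContDiff ℝ ∞ bb := by
  have hc : Continuous fun t : ℝ => Real.cos (2 * Real.pi * t) := by fun_prop
  rw [contDiff_iff_contDiffAt]
  intro t
  rcases lt_or_ge (Real.cos (2 * Real.pi * t)) (1 / 4) with h | h
  · have h1 : ∀ᶠ s in 𝓝 t, Real.cos (2 * Real.pi * s) < 1 / 4 :=
      hc.continuousAt.eventually_lt continuousAt_const h
    refine (contDiffAt_const (c := (0 : ℝ))).congr_of_eventuallyEq (h1.mono fun s hs => ?_)
    show bb s = 0
    rw [bb, Real.smoothTransition.zero_of_nonpos (by linarith), zero_mul]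
  · have h1 : Real.sin (2 * Real.pi * t) ≠ -1 := fun h2 => by
      have := Real.sin_sq_add_cos_sq (2 * Real.pi * t)
      rw [h2] at this
      nlinarith
    have h2 : Real.sin (2 * Real.pi * t) ≠ 1 := fun h2 => by
      have := Real.sin_sq_add_cos_sq (2 * Real.pi * t)
      rw [h2] at this
      nlinarith
    have h3 : ContDiffAt ℝ ∞ (fun s => Real.sin (2 * Real.pi * s)) t :=
      (Real.contDiff_sin.comp contDiff_lin).contDiffAt
    have h4 : ContDiffAt ℝ ∞ (fun s => 4 * Real.cos (2 * Real.pi * s) - 1) t :=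
      ((contDiff_const.mul (Real.contDiff_cos.comp contDiff_lin)).sub contDiff_const).contDiffAt
    have h5 : ContDiffAt ℝ ∞ (fun s => Real.smoothTransition (4 * Real.cos (2 * Real.pi * s) - 1))
        t := ContDiffAt.comp t (Real.smoothTransition.contDiff.contDiffAt) h4
    have h6 : ContDiffAt ℝ ∞ (fun s => Real.arcsin (Real.sin (2 * Real.pi * s))) t :=
      ContDiffAt.comp (g := Real.arcsin) (f := fun s => Real.sin (2 * Real.pi * s)) t
        (Real.contDiffAt_arcsin h1 h2) h3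
    exact h5.mul (h6.div_const _)

theorem cos_int (t : ℝ) (m : ℤ) :
    Real.cos (2 * Real.pi * (t + m)) = Real.cos (2 * Real.pi * t) := by
  rw [show 2 * Real.pi * (t + m) = 2 * Real.pi * t + m * (2 * Real.pi) by ring,
    Real.cos_add_int_mul_two_pi]

theorem sin_int (t : ℝ) (m : ℤ) :
    Real.sin (2 * Real.pi * (t + m)) = Real.sin (2 * Real.pi * t) := by
  rw [show 2 * Real.pi * (t + m) = 2 * Real.pi * t + m * (2 * Real.pi) by ring,
    Real.sin_add_int_mul_two_pi]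

theorem bb_int (t : ℝ) (m : ℤ) : bb (t + m) = bb t := by rw [bb, bb, cos_int, sin_int]

theorem kk_int (t : ℝ) (m : ℤ) : kk (t + m) = kk t := by rw [kk, kk, cos_int]

theorem kk_nonneg (t : ℝ) : 0 ≤ kk t := expNegInvGlue.nonneg _

theorem bb_of_cos {t : ℝ} (h : 1 / 2 ≤ Real.cos (2 * Real.pi * t)) :
    bb t = Real.arcsin (Real.sin (2 * Real.pi * t)) / (2 * Real.pi) := by
  rw [bb, Real.smoothTransition.one_of_one_le (by linarith), one_mul]

theorem kk_of_cos {t : ℝ} (h : 1 / 2 ≤ Real.cos (2 * Real.pi * t)) : kk t = 0 :=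
  expNegInvGlue.zero_of_nonpos (by linarith)

theorem hasDerivAt_bb {t : ℝ} (h : 1 / 2 < Real.cos (2 * Real.pi * t)) : HasDerivAt bb 1 t := by
  have hc : Continuous fun t : ℝ => Real.cos (2 * Real.pi * t) := by fun_prop
  have h0 : ∀ᶠ s in 𝓝 t, 1 / 2 < Real.cos (2 * Real.pi * s) :=
    continuousAt_const.eventually_lt hc.continuousAt h
  have hpi : (2 * Real.pi) ≠ 0 := by positivity
  have hcos : √(1 - Real.sin (2 * Real.pi * t) ^ 2) = Real.cos (2 * Real.pi * t) := by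
    rw [← Real.cos_sq', Real.sqrt_sq (by linarith)]
  have h1 : Real.sin (2 * Real.pi * t) ≠ -1 := fun h2 => by
    have := Real.sin_sq_add_cos_sq (2 * Real.pi * t)
    rw [h2] at this
    nlinarith
  have h2 : Real.sin (2 * Real.pi * t) ≠ 1 := fun h2 => by
    have := Real.sin_sq_add_cos_sq (2 * Real.pi * t)
    rw [h2] at this
    nlinarith
  have h3 : HasDerivAt (fun s => Real.sin (2 * Real.pi * s))
      (Real.cos (2 * Real.pi * t) * (2 * Real.pi)) t := by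
    have h4 : HasDerivAt (fun s : ℝ => 2 * Real.pi * s) (2 * Real.pi) t := by
      simpa using (hasDerivAt_id t).const_mul (2 * Real.pi)
    exact h4.sin
  have h4 := ((Real.hasDerivAt_arcsin h1 h2).comp t h3).div_const (2 * Real.pi)
  have h5 : (1 / √(1 - Real.sin (2 * Real.pi * t) ^ 2) *
      (Real.cos (2 * Real.pi * t) * (2 * Real.pi))) / (2 * Real.pi) = 1 := by
    rw [hcos]
    have : Real.cos (2 * Real.pi * t) ≠ 0 := by linarith
    field_simp
  rw [h5] at h4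
  exact h4.congr_of_eventuallyEq (h0.mono fun s hs => bb_of_cos hs.le)

theorem hasDerivAt_kk {t : ℝ} (h : 1 / 2 < Real.cos (2 * Real.pi * t)) : HasDerivAt kk 0 t := by
  have hc : Continuous fun t : ℝ => Real.cos (2 * Real.pi * t) := by fun_prop
  have h0 : ∀ᶠ s in 𝓝 t, 1 / 2 < Real.cos (2 * Real.pi * s) :=
    continuousAt_const.eventually_lt hc.continuousAt h
  exact (hasDerivAt_const t (0 : ℝ)).congr_of_eventuallyEq (h0.mono fun s hs => kk_of_cos hs.le)

theorem bb_zero_int {t : ℝ} (hk : kk t = 0) (hb : bb t = 0) : ∃ m : ℤ, t = m := by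
  have h1 : 1 / 2 ≤ Real.cos (2 * Real.pi * t) := by
    have := expNegInvGlue.zero_iff_nonpos.1 hk
    linarith
  rw [bb_of_cos h1, div_eq_zero_iff] at hb
  have h2 : Real.sin (2 * Real.pi * t) = 0 := by
    rcases hb with h | h
    · exact Real.arcsin_eq_zero_iff.1 h
    · exact absurd h (by positivity)
  have h3 : Real.cos (2 * Real.pi * t) = 1 := by
    have := Real.sin_sq_add_cos_sq (2 * Real.pi * t)
    rw [h2] at this
    nlinarith
  obtain ⟨m, hm⟩ := (Real.cos_eq_one_iff _).1 h3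
  refine ⟨m, ?_⟩
  have hpi : (2 * Real.pi) ≠ 0 := by positivity
  have : (2 * Real.pi) * t = (2 * Real.pi) * m := by rw [← hm]; ring
  exact mul_left_cancel₀ hpi this

theorem bb_small {t : ℝ} (h0 : 0 ≤ t) (h1 : t ≤ 1 / 8) : bb t = t ∧ kk t = 0 := by
  have hpi := Real.pi_pos
  have hc : 1 / 2 ≤ Real.cos (2 * Real.pi * t) := by
    rw [← Real.cos_pi_div_three]
    apply Real.cos_le_cos_of_nonneg_of_le_pi (by positivity) (by linarith) (by nlinarith)
  refine ⟨?_, kk_of_cos hc⟩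
  rw [bb_of_cos hc, Real.arcsin_sin (by nlinarith) (by nlinarith)]
  field_simp

/-! ### The spinor -/

theorem mk_add (p q : Fin 8 → ℝ) : mk (p + q) = mk p + mk q := by
  ext a b
  fin_cases a <;> fin_cases b <;> simp [mk] <;> ring

theorem mk_smul (c : ℝ) (p : Fin 8 → ℝ) : mk (c • p) = (c : ℂ) • mk p := by
  ext a b
  fin_cases a <;> fin_cases b <;> simp [mk] <;> ring

/-- The inclusion of `ℂ⁴` in `ℂⁿ`. -/
def incl (n : ℕ) : Matrix (Fin 4) (Fin n) ℂ :=
  Matrix.of fun a b => if b.val = a.val then 1 else 0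

theorem incl_mul (n : ℕ) (hn : 4 ≤ n) : incl n * (incl n)ᴴ = 1 := by
  ext a b
  have h : ∀ c : Fin n, (c.val = a.val) ↔ c = Fin.castLE hn a := fun c => by
    rw [Fin.ext_iff]; rfl
  rw [Matrix.mul_apply, Finset.sum_eq_single (Fin.castLE hn a)]
  · simp only [incl, conjTranspose_apply, of_apply, Matrix.one_apply, Fin.val_castLE, if_true,
      one_mul, Fin.ext_iff]
    split_ifs <;> simp
  · intro c _ hc
    simp only [incl, conjTranspose_apply, of_apply, (h c).not.2 hc, if_false, zero_mul]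
  · intro h; exact absurd (Finset.mem_univ _) h

/-- The entries of the matrices are linear in the components. -/
noncomputable def entry {n : ℕ} (J : Matrix (Fin 4) (Fin n) ℂ) (a : Fin 2) (b : Fin n) :
    (Fin 8 → ℝ) →L[ℝ] ℂ :=
  LinearMap.toContinuousLinearMap
    { toFun := fun q => (mk q * J) a b
      map_add' := fun p q => by rw [mk_add, Matrix.add_mul]; rfl
      map_smul' := fun c q => by
        rw [mk_smul, Matrix.smul_mul, Matrix.smul_apply]
        simp }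

theorem entry_apply {n : ℕ} (J : Matrix (Fin 4) (Fin n) ℂ) (a : Fin 2) (b : Fin n)
    (q : Fin 8 → ℝ) : entry J a b q = (mk q * J) a b := rfl

variable {n : ℕ} {q : (Fin 3 → ℝ) → Fin 8 → ℝ}

theorem sm_mk (J : Matrix (Fin 4) (Fin n) ℂ) (hq : ContDiff ℝ ∞ q) (x : Fin 3 → ℝ) :
    Sm (fun y => mk (q y) * J) x := fun a b =>
  ((entry J a b).contDiff.comp hq).contDiffAt

theorem pd_mk (J : Matrix (Fin 4) (Fin n) ℂ) {x : Fin 3 → ℝ} (hq : DifferentiableAt ℝ q x)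
    (j : Fin 3) :
    pd j (fun y => mk (q y) * J) x = mk (fderiv ℝ q x (Pi.single j 1)) * J := by
  ext a b
  have h := ((entry J a b).hasFDerivAt.comp x hq.hasFDerivAt).fderiv
  simp only [pd, of_apply]
  have h2 : (fun y => (mk (q y) * J) a b) = (entry J a b) ∘ q := rfl
  rw [h2, h]
  rfl

/-- The components of the Dirac derivative. -/
noncomputable def xq (q : (Fin 3 → ℝ) → Fin 8 → ℝ) (x : Fin 3 → ℝ) : Fin 8 → ℝ :=
  xc fun j => fderiv ℝ q x (Pi.single j 1)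

theorem sum_pd (J : Matrix (Fin 4) (Fin n) ℂ) {x : Fin 3 → ℝ} (hq : DifferentiableAt ℝ q x) :
    ∑ j, cl j * pd j (fun y => mk (q y) * J) x = mk (xq q x) * J := by
  simp only [pd_mk J hq]
  rw [xq, ← sum_cl_mk, Matrix.sum_mul]
  simp only [Matrix.mul_assoc]

theorem contDiff_xc : ContDiff ℝ ∞ xc := by
  have h : ∀ j i, ContDiff ℝ ∞ fun d : Fin 3 → Fin 8 → ℝ => d j i := fun j i =>
    contDiff_pi.1 (contDiff_pi.1 contDiff_id j) i
  rw [contDiff_pi]
  intro i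
  fin_cases i
  · exact (((h 0 1).add (h 1 2)).add (h 2 3)).neg
  · exact ((h 0 0).add (h 1 3)).sub (h 2 2)
  · exact ((h 1 0).add (h 2 1)).sub (h 0 3)
  · exact ((h 2 0).add (h 0 2)).sub (h 1 1)
  · exact (((h 0 5).add (h 1 6)).add (h 2 7)).neg
  · exact ((h 0 4).add (h 1 7)).sub (h 2 6)
  · exact ((h 1 4).add (h 2 5)).sub (h 0 7)
  · exact ((h 2 4).add (h 0 6)).sub (h 1 5)

theorem contDiff_xq (hq : ContDiff ℝ ∞ q) : ContDiff ℝ ∞ (xq q) := by
  refine contDiff_xc.comp (contDiff_pi.2 fun j => ?_)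
  have h1 : ContDiff ℝ ∞ (fderiv ℝ q) := hq.fderiv_right (by simp)
  exact h1.clm_apply contDiff_const

theorem nsq_eq (M : Matrix (Fin 2) (Fin n) ℂ) : nsq M = (M * Mᴴ).trace.re := by
  simp only [nsq, Matrix.trace, Matrix.diag, Matrix.mul_apply, conjTranspose_apply, re_sum]
  refine Finset.sum_congr rfl fun a _ => Finset.sum_congr rfl fun b _ => ?_
  have : star (M a b) = (starRingEnd ℂ) (M a b) := rfl
  rw [this, Complex.mul_conj, Complex.ofReal_re, Complex.normSq_eq_norm_sq]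

theorem mk_incl_mul (hn : 4 ≤ n) (p q : Fin 8 → ℝ) :
    (mk p * incl n) * (mk q * incl n)ᴴ = mk p * (mk q)ᴴ := by
  rw [conjTranspose_mul, Matrix.mul_assoc, ← Matrix.mul_assoc (incl n), incl_mul n hn,
    Matrix.one_mul]

theorem nsq_mk (hn : 4 ≤ n) (p : Fin 8 → ℝ) : nsq (mk p * incl n) = 2 * ∑ i, p i ^ 2 := by
  rw [nsq_eq, mk_incl_mul hn, mk_mul_conj, Matrix.trace_smul, Matrix.trace_one]
  rw [smul_eq_mul, Complex.re_ofReal_mul]
  simp
  ring


/-! ### The connection -/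

/-- The spinor with the components `q`. -/
noncomputable def sp (n : ℕ) (q : (Fin 3 → ℝ) → Fin 8 → ℝ) (x : Fin 3 → ℝ) :
    Matrix (Fin 2) (Fin n) ℂ := mk (q x) * incl n

/-- The connection. -/
noncomputable def con (n : ℕ) (q : (Fin 3 → ℝ) → Fin 8 → ℝ) (j : Fin 3) (x : Fin 3 → ℝ) :
    Matrix (Fin n) (Fin n) ℂ :=
  bm (((∑ i, q x i ^ 2)⁻¹ : ℝ) : ℂ) (sp n q x) (mk (xq q x) * incl n) j

theorem con_periodic (hp : Per q) (j : Fin 3) : Per (con n q j) := by
  intro x v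
  have h1 : fderiv ℝ q (x + fun j => (v j : ℝ)) = fderiv ℝ q x := by
    have h2 : (fun y => q (y + fun j => (v j : ℝ))) = q := funext fun y => hp y v
    have h3 := fderiv_comp_add_right (𝕜 := ℝ) (f := q) (x := x) (fun j => (v j : ℝ))
    rw [h2] at h3
    exact h3.symm
  simp only [con, sp, xq, hp x v, h1]

theorem bm_zero (k : ℂ) (Ψ : Matrix (Fin 2) (Fin n) ℂ) (j : Fin 3) : bm k Ψ 0 j = 0 := by
  fin_cases j <;> simp [bm, b0, b1]

theorem mk_zero : mk 0 = 0 := by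
  ext a b
  fin_cases a <;> fin_cases b <;> simp [mk]

theorem con_smooth (hq : ContDiff ℝ ∞ q)
    (hZ : ∀ x, (∑ i, q x i ^ 2) = 0 → ∀ᶠ y in 𝓝 x, xq q y = 0) (j : Fin 3) (x : Fin 3 → ℝ) :
    Sm (con n q j) x := by
  by_cases h : (∑ i, q x i ^ 2) = 0
  · intro a b
    refine (contDiffAt_const (c := (0 : ℂ))).congr_of_eventuallyEq ((hZ x h).mono fun y hy => ?_)
    simp only [con, hy, mk_zero, Matrix.zero_mul, bm_zero]
    rfl
  · have h1 : ContDiffAt ℝ ∞ (fun y => (((∑ i, q y i ^ 2)⁻¹ : ℝ) : ℂ)) x := by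
      have h2 : ContDiffAt ℝ ∞ (fun y => (∑ i, q y i ^ 2)⁻¹) x :=
        (ContDiffAt.sum fun i _ => ((contDiff_pi.1 hq i).contDiffAt.pow 2)).inv h
      exact Complex.ofRealCLM.contDiff.contDiffAt.comp x h2
    exact sm_bm h1 (sm_mk _ hq x) (sm_mk _ (contDiff_xq hq) x) j

theorem con_isConnection (hn : 4 ≤ n) (hq : ContDiff ℝ ∞ q) (hp : Per q)
    (hZ : ∀ x, (∑ i, q x i ^ 2) = 0 → ∀ᶠ y in 𝓝 x, xq q y = 0) : IsConnection (con n q) := by
  have h1 : ∀ x, ∃ r : ℝ, (cl 0 * (mk (xq q x) * incl n * (sp n q x)ᴴ)).trace = r := fun x => by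
    rw [sp, mk_incl_mul hn]
    obtain ⟨r, -, hr⟩ := quat (xq q x) (q x)
    exact ⟨r, hr⟩
  have h2 : ∀ x, sp n q x * (sp n q x)ᴴ = ((∑ i, q x i ^ 2 : ℝ) : ℂ) • (1 : Matrix _ _ ℂ) :=
    fun x => by rw [sp, mk_incl_mul hn, mk_mul_conj]
  refine ⟨fun j a b => contDiff_iff_contDiffAt.2 fun x => con_smooth hq hZ j x a b,
    con_periodic hp, fun j x => ?_, fun j x => ?_⟩
  · obtain ⟨r, hr⟩ := h1 x
    exact bm_skew hr j
  · obtain ⟨r, hr⟩ := h1 x
    exact bm_trace hr (h2 x) j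

theorem con_dirac (hn : 4 ≤ n) (hq : ContDiff ℝ ∞ q) {x : Fin 3 → ℝ}
    (hx : (∑ i, q x i ^ 2) ≠ 0) : dirac 0 (con n q) (sp n q) x = 0 := by
  obtain ⟨r, hr', hr⟩ := quat (xq q x) (q x)
  rw [← mk_incl_mul hn] at hr hr'
  have h2 : (mk (q x) * incl n) * (mk (q x) * incl n)ᴴ =
      ((∑ i, q x i ^ 2 : ℝ) : ℂ) • (1 : Matrix _ _ ℂ) := by rw [mk_incl_mul hn, mk_mul_conj]
  have h3 := bm_eq hr hr' h2 (inv_mul_cancel₀ hx)
  have h4 := sum_pd (incl n) ((hq.differentiable (by simp)).differentiableAt (x := x))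
  simp only [dirac, cov, Pi.zero_apply, Complex.ofReal_zero, mul_zero, zero_smul, add_zero,
    Matrix.mul_sub, Finset.sum_sub_distrib]
  rw [sub_eq_zero]
  exact h4.trans h3.symm


/-! ### The example -/

/-- The eight components as a function of four real numbers. -/
noncomputable def qq (g a b c : ℝ) : Fin 8 → ℝ := ![g, √3 * a, -(√3 * b), 0, 0, a, b, -(2 * c)]

/-- The components of the spinor before normalisation. -/
noncomputable def q0 (x : Fin 3 → ℝ) : Fin 8 → ℝ :=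
  qq (kk (x 0) + kk (x 1) + kk (x 2)) (bb (x 0)) (bb (x 1)) (bb (x 2))

theorem sum_qq (g a b c : ℝ) : ∑ i, qq g a b c i ^ 2 = g ^ 2 + 4 * (a ^ 2 + b ^ 2 + c ^ 2) := by
  have h : √(3 : ℝ) ^ 2 = 3 := Real.sq_sqrt (by norm_num)
  simp only [qq, Fin.sum_univ_eight, Fin.isValue, Matrix.cons_val]
  have : (√3 * a) ^ 2 = 3 * a ^ 2 := by rw [mul_pow, h]
  have h' : (-(√3 * b)) ^ 2 = 3 * b ^ 2 := by rw [neg_sq, mul_pow, h]
  rw [this, h']
  ring

theorem contDiff_q0 : ContDiff ℝ ∞ q0 := by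
  have hb : ∀ i : Fin 3, ContDiff ℝ ∞ fun x : Fin 3 → ℝ => bb (x i) := fun i =>
    contDiff_bb.comp (contDiff_apply ℝ ℝ i)
  have hk : ∀ i : Fin 3, ContDiff ℝ ∞ fun x : Fin 3 → ℝ => kk (x i) := fun i =>
    contDiff_kk.comp (contDiff_apply ℝ ℝ i)
  rw [contDiff_pi]
  intro i
  fin_cases i
  · exact ((hk 0).add (hk 1)).add (hk 2)
  · exact contDiff_const.mul (hb 0)
  · exact (contDiff_const.mul (hb 1)).neg
  · exact contDiff_const
  · exact contDiff_const
  · exact hb 0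
  · exact hb 1
  · exact (contDiff_const.mul (hb 2)).neg

theorem per_q0 : Per q0 := fun x v => by
  simp only [q0, Pi.add_apply, bb_int, kk_int]

theorem q0_zero_iff (x : Fin 3 → ℝ) : ∑ i, q0 x i ^ 2 = 0 ↔ x ∈ origin := by
  rw [q0, sum_qq]
  have hk : 0 ≤ kk (x 0) + kk (x 1) + kk (x 2) :=
    add_nonneg (add_nonneg (kk_nonneg _) (kk_nonneg _)) (kk_nonneg _)
  constructor
  · intro h
    have h1 : kk (x 0) + kk (x 1) + kk (x 2) = 0 := by
      have := sq_nonneg (bb (x 0)); have := sq_nonneg (bb (x 1)); have := sq_nonneg (bb (x 2))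
      nlinarith
    have h2 : bb (x 0) ^ 2 = 0 ∧ bb (x 1) ^ 2 = 0 ∧ bb (x 2) ^ 2 = 0 := by
      have := sq_nonneg (bb (x 0)); have := sq_nonneg (bb (x 1)); have := sq_nonneg (bb (x 2))
      rw [h1] at h
      refine ⟨by linarith, by linarith, by linarith⟩
    have h3 := kk_nonneg (x 0); have h4 := kk_nonneg (x 1); have h5 := kk_nonneg (x 2)
    obtain ⟨m0, e0⟩ := bb_zero_int (by linarith : kk (x 0) = 0) (pow_eq_zero_iff (by simp) |>.1 h2.1)
    obtain ⟨m1, e1⟩ := bb_zero_int (by linarith : kk (x 1) = 0)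
      (pow_eq_zero_iff (by simp) |>.1 h2.2.1)
    obtain ⟨m2, e2⟩ := bb_zero_int (by linarith : kk (x 2) = 0)
      (pow_eq_zero_iff (by simp) |>.1 h2.2.2)
    refine ⟨![m0, m1, m2], funext fun i => ?_⟩
    fin_cases i
    · exact e0
    · exact e1
    · exact e2
  · rintro ⟨v, rfl⟩
    have hb : ∀ m : ℤ, bb m = 0 := fun m => by
      have := bb_int 0 m
      rw [zero_add] at this
      rw [this, (bb_small le_rfl (by norm_num)).1]
    have hk' : ∀ m : ℤ, kk m = 0 := fun m => by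
      have := kk_int 0 m
      rw [zero_add] at this
      rw [this, (bb_small le_rfl (by norm_num)).2]
    simp only [hb, hk']
    norm_num

theorem cos_of_origin {x : Fin 3 → ℝ} (hx : x ∈ origin) (i : Fin 3) :
    Real.cos (2 * Real.pi * x i) = 1 := by
  obtain ⟨v, rfl⟩ := hx
  have := cos_int 0 (v i)
  simpa using this

theorem xq_zero (c : ℝ) {x : Fin 3 → ℝ} (hx : x ∈ origin) :
    ∀ᶠ y in 𝓝 x, xq (fun z => c • q0 z) y = 0 := by
  have h : ∀ i : Fin 3, ∀ᶠ y : Fin 3 → ℝ in 𝓝 x, 1 / 2 < Real.cos (2 * Real.pi * y i) := fun i => by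
    have hc : Continuous fun y : Fin 3 → ℝ => Real.cos (2 * Real.pi * y i) := by fun_prop
    refine continuousAt_const.eventually_lt hc.continuousAt ?_
    simp only [cos_of_origin hx]
    norm_num
  filter_upwards [h 0, h 1, h 2] with y h0 h1 h2
  let pr : Fin 3 → ((Fin 3 → ℝ) →L[ℝ] ℝ) := fun i => ContinuousLinearMap.proj i
  have hpr : ∀ i, HasFDerivAt (fun z : Fin 3 → ℝ => z i) (pr i) y := fun i => (pr i).hasFDerivAt
  have hb : ∀ i : Fin 3, 1 / 2 < Real.cos (2 * Real.pi * y i) →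
      HasFDerivAt (fun z : Fin 3 → ℝ => bb (z i)) (pr i) y := fun i hi => by
    have h3 := (hasDerivAt_bb hi).comp_hasFDerivAt y (hpr i)
    rw [one_smul] at h3
    exact h3
  have hk : ∀ i : Fin 3, 1 / 2 < Real.cos (2 * Real.pi * y i) →
      HasFDerivAt (fun z : Fin 3 → ℝ => kk (z i)) (0 : (Fin 3 → ℝ) →L[ℝ] ℝ) y := fun i hi => by
    have h3 := (hasDerivAt_kk hi).comp_hasFDerivAt y (hpr i)
    rw [zero_smul] at h3
    exact h3
  have h3 : HasFDerivAt q0 (ContinuousLinearMap.pi ![(0 + 0) + 0, √3 • pr 0, -(√3 • pr 1), 0, 0,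
      pr 0, pr 1, -((2 : ℝ) • pr 2)]) y := by
    refine hasFDerivAt_pi.2 fun i => ?_
    fin_cases i
    · exact (((hk 0 h0).add (hk 1 h1)).add (hk 2 h2))
    · exact ((hb 0 h0).const_mul √3)
    · exact ((hb 1 h1).const_mul √3).neg
    · exact hasFDerivAt_const (0 : ℝ) y
    · exact hasFDerivAt_const (0 : ℝ) y
    · exact hb 0 h0
    · exact hb 1 h1
    · exact ((hb 2 h2).const_mul 2).neg
  have h4 : HasFDerivAt (fun z => c • q0 z) _ y := h3.const_smul c
  have hd : ∀ v : Fin 3 → ℝ, fderiv ℝ (fun z => c • q0 z) y v = c • qq 0 (v 0) (v 1) (v 2) := by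
    intro v
    rw [h4.fderiv]
    ext i
    fin_cases i <;> simp [qq, pr]
  ext i
  simp only [xq, xc, hd]
  fin_cases i <;> simp [qq]
  ring

theorem sum_smul (c : ℝ) (p : Fin 8 → ℝ) : ∑ i, (c • p) i ^ 2 = c ^ 2 * ∑ i, p i ^ 2 := by
  rw [Finset.mul_sum]
  refine Finset.sum_congr rfl fun i _ => ?_
  simp [mul_pow]

theorem integral_pos : 0 < ∫ x in Icc (0 : Fin 3 → ℝ) 1, 2 * ∑ i, q0 x i ^ 2 := by
  have hc : Continuous fun x : Fin 3 → ℝ => 2 * ∑ i, q0 x i ^ 2 :=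
    continuous_const.mul (continuous_finsetSum _ fun i _ =>
      ((continuous_pi_iff.1 contDiff_q0.continuous i).pow 2))
  rw [setIntegral_pos_iff_support_of_nonneg_ae]
  · have h1 : (univ.pi fun _ : Fin 3 => Ioo (0 : ℝ) 1) ⊆
        (Function.support fun x : Fin 3 → ℝ => 2 * ∑ i, q0 x i ^ 2) ∩ Icc 0 1 := by
      intro x hx
      rw [mem_univ_pi] at hx
      refine ⟨?_, fun i => (hx i).1.le, fun i => (hx i).2.le⟩
      rw [Function.mem_support]
      intro h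
      obtain ⟨v, hv⟩ := (q0_zero_iff x).1 (by simpa using h)
      have h2 := hx 0
      rw [hv] at h2
      have h3 : (0 : ℝ) < (v 0 : ℝ) := h2.1
      have h4 : (v 0 : ℝ) < 1 := h2.2
      have h5 : (0 : ℤ) < v 0 := by exact_mod_cast h3
      have h6 : v 0 < (1 : ℤ) := by exact_mod_cast h4
      omega
    refine lt_of_lt_of_le ?_ (measure_mono h1)
    rw [Real.volume_pi_Ioo]
    simp
  · exact Eventually.of_forall fun x => mul_nonneg (by norm_num)
      (Finset.sum_nonneg fun i _ => sq_nonneg _)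
  · exact hc.continuousOn.integrableOn_compact isCompact_Icc

theorem origin_closed : IsClosed origin := by
  have hc : Continuous fun x : Fin 3 → ℝ => ∑ i, q0 x i ^ 2 :=
    continuous_finsetSum _ fun i _ => ((continuous_pi_iff.1 contDiff_q0.continuous i).pow 2)
  have : origin = {x | ∑ i, q0 x i ^ 2 = 0} := by
    ext x
    exact (q0_zero_iff x).symm
  rw [this]
  exact isClosed_eq hc continuous_const

theorem origin_interior : interior origin = ∅ := by
  rw [interior_eq_empty_iff_dense_compl]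
  refine Set.Countable.dense_compl ℝ ?_
  have : origin = range fun (v : Fin 3 → ℤ) (j : Fin 3) => (v j : ℝ) := by
    ext x
    exact ⟨fun ⟨v, hv⟩ => ⟨v, hv.symm⟩, fun ⟨v, hv⟩ => ⟨v, hv.symm⟩⟩
  rw [this]
  exact countable_range _

theorem closure_arg {F : ℝ → ℂ} (hF : Continuous F) (h : ∀ t ∈ Ioo (0 : ℝ) (1 / 8), F t = 0) :
    F 0 = 0 := by
  have h1 : closure (Ioo (0 : ℝ) (1 / 8)) ⊆ {t | F t = 0} :=
    closure_minimal (fun t ht => h t ht) (isClosed_eq hF continuous_const)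
  rw [closure_Ioo (by norm_num)] at h1
  exact h1 ⟨le_rfl, by norm_num⟩

theorem q0_ray (t : ℝ) (h0 : 0 ≤ t) (h1 : t ≤ 1 / 8) (j : Fin 3) :
    q0 (Pi.single j t) = t • qq 0 ((Pi.single j 1 : Fin 3 → ℝ) 0) ((Pi.single j 1 : Fin 3 → ℝ) 1)
      ((Pi.single j 1 : Fin 3 → ℝ) 2) := by
  obtain ⟨hb, hk⟩ := bb_small h0 h1
  obtain ⟨hb0, hk0⟩ := bb_small le_rfl (by norm_num : (0 : ℝ) ≤ 1 / 8)
  ext i
  fin_cases j <;> fin_cases i <;> simp [q0, qq, hb, hk, hb0, hk0] <;> ring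

theorem not_origin {t : ℝ} (ht : t ∈ Ioo (0 : ℝ) (1 / 8)) (j : Fin 3) :
    (Pi.single j t : Fin 3 → ℝ) ∉ origin := by
  rintro ⟨v, hv⟩
  have h1 := congrFun hv j
  rw [Pi.single_eq_same] at h1
  rw [h1] at ht
  have h3 : (0 : ℤ) < v j := by exact_mod_cast ht.1
  have h4 : v j < (1 : ℤ) := by
    have : (v j : ℝ) < 1 := ht.2.trans (by norm_num)
    exact_mod_cast this
  omega

theorem ker_smul {M : Matrix (Fin 2) (Fin n) ℂ} {c : ℂ} (hc : c ≠ 0) {P : Matrix (Fin n) (Fin n) ℂ}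
    (h : IsKerProj (c • M) P) : IsKerProj M P := by
  refine ⟨h.1, h.2.1, fun v => ?_⟩
  rw [← h.2.2 v, Matrix.smul_mulVec, smul_eq_zero, or_iff_right hc]

theorem not_extends (hn : 4 ≤ n) {c : ℝ} (hc : c ≠ 0) :
    ¬ KernelMapExtends origin (sp n fun x => c • q0 x) := by
  rintro ⟨P, hP, -, hker⟩
  have hcont : ∀ j : Fin 3, Continuous fun t : ℝ => P (Pi.single j t) := fun j =>
    hP.comp (continuous_pi fun i => by
      by_cases h : i = j
      · subst h
        simp only [Pi.single_eq_same]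
        exact continuous_id
      · simpa [Pi.single_apply, h] using continuous_const)
  let M : Fin 3 → Matrix (Fin 2) (Fin n) ℂ := fun j =>
    mk (qq 0 ((Pi.single j 1 : Fin 3 → ℝ) 0) ((Pi.single j 1 : Fin 3 → ℝ) 1)
      ((Pi.single j 1 : Fin 3 → ℝ) 2)) * incl n
  have hk : ∀ (j : Fin 3) (t : ℝ), t ∈ Ioo (0 : ℝ) (1 / 8) →
      IsKerProj (M j) (P (Pi.single j t)) := by
    intro j t ht
    have h1 := hker _ (not_origin ht j)
    have h2 : sp n (fun x => c • q0 x) (Pi.single j t) = ((c * t : ℝ) : ℂ) • M j := by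
      show mk (c • q0 (Pi.single j t)) * incl n = _
      rw [q0_ray t ht.1.le ht.2.le j, smul_smul, mk_smul, Matrix.smul_mul]
    rw [h2] at h1
    exact ker_smul (by exact_mod_cast mul_ne_zero hc ht.1.ne') h1
  have i0 : Fin n := ⟨0, by omega⟩
  let v : Fin n → ℂ := Pi.single ⟨0, by omega⟩ 1
  have hv : ∀ (K : Matrix (Fin 2) (Fin n) ℂ), K *ᵥ v = K.col ⟨0, by omega⟩ := fun K => by
    rw [Matrix.mulVec_single_one]
  have hincl : ∀ K : Matrix (Fin 2) (Fin 4) ℂ, (K * incl n) *ᵥ v = K.col 0 := fun K => by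
    rw [hv]
    ext a
    rw [Matrix.col_apply, Matrix.mul_apply, Fin.sum_univ_four]
    simp [incl]
  have h3 : M 2 *ᵥ v = 0 := by
    show (mk _ * incl n) *ᵥ v = 0
    rw [hincl]
    ext a
    fin_cases a <;> simp [mk, qq]
  have h1 : M 0 *ᵥ v ≠ 0 := by
    show (mk _ * incl n) *ᵥ v ≠ 0
    rw [hincl]
    intro h
    have := congrFun h 1
    simp [mk, qq] at this
  have e1 : P 0 *ᵥ v = v := by
    ext i
    rw [← sub_eq_zero]
    have h := closure_arg (F := fun t => (P (Pi.single 2 t) *ᵥ v) i - v i) (by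
      refine Continuous.sub ?_ continuous_const
      simp only [Matrix.mulVec, dotProduct]
      exact continuous_finsetSum _ fun j _ =>
        ((continuous_apply j).comp ((continuous_apply i).comp (hcont 2))).mul continuous_const)
      (fun t ht => by rw [((hk 2 t ht).2.2 v).1 h3, sub_self])
    simpa using h
  have e2 : M 0 * P 0 = 0 := by
    ext a b
    have h := closure_arg (F := fun t => (M 0 * P (Pi.single 0 t)) a b) (by
      simp only [Matrix.mul_apply]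
      exact continuous_finsetSum _ fun j _ =>
        continuous_const.mul ((continuous_apply b).comp ((continuous_apply j).comp (hcont 0))))
      (fun t ht => by
        have h4 := hk 0 t ht
        have h5 : M 0 *ᵥ (P (Pi.single 0 t) *ᵥ Pi.single b 1) = 0 := by
          rw [h4.2.2, Matrix.mulVec_mulVec, h4.1]
        rw [Matrix.mulVec_mulVec, Matrix.mulVec_single_one] at h5
        exact congrFun h5 a)
    simpa using h
  apply h1
  rw [← e1, Matrix.mulVec_mulVec, e2, Matrix.zero_mulVec]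

/-- **Theorem.** For every `n ≥ 4` there are a smooth connection `B` on the trivial `SU(n)`-bundle
over the flat torus `T³` and a solution `(A, Ψ, 0)` over the complement of one point whose kernel
map does not extend continuously to the torus. -/
theorem result (n : ℕ) (hn : 4 ≤ n) :
    ∃ (B : Fin 3 → (Fin 3 → ℝ) → Matrix (Fin n) (Fin n) ℂ) (A : Fin 3 → (Fin 3 → ℝ) → ℝ)
      (Ψ : (Fin 3 → ℝ) → Matrix (Fin 2) (Fin n) ℂ),
      IsConnection B ∧ IsSolution B origin A Ψ ∧ ¬ KernelMapExtends origin Ψ := by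
  set I0 : ℝ := ∫ x in Icc (0 : Fin 3 → ℝ) 1, 2 * ∑ i, q0 x i ^ 2 with hI0
  have hI : 0 < I0 := integral_pos
  obtain ⟨c, hc, hc2⟩ : ∃ c : ℝ, c ≠ 0 ∧ c ^ 2 * I0 = 1 :=
    ⟨(√I0)⁻¹, inv_ne_zero (Real.sqrt_pos.2 hI).ne', by
      rw [inv_pow, Real.sq_sqrt hI.le, inv_mul_cancel₀ hI.ne']⟩
  let q : (Fin 3 → ℝ) → Fin 8 → ℝ := fun x => c • q0 x
  have hq : ContDiff ℝ ∞ q := contDiff_q0.const_smul c
  have hp : Per q := fun x v => by show c • q0 _ = c • q0 _; rw [per_q0 x v]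
  have hz : ∀ x, ∑ i, q x i ^ 2 = 0 ↔ x ∈ origin := fun x => by
    show ∑ i, (c • q0 x) i ^ 2 = 0 ↔ _
    rw [sum_smul, ← q0_zero_iff]
    simp [hc]
  have hns : ∀ x, nsq (sp n q x) = 2 * ∑ i, q x i ^ 2 := fun x => nsq_mk hn _
  have hcont : Continuous fun x => nsq (sp n q x) := by
    simp only [hns]
    exact continuous_const.mul (continuous_finsetSum _ fun i _ =>
      ((continuous_pi_iff.1 hq.continuous i).pow 2))
  refine ⟨con n q, 0, sp n q, con_isConnection hn hq hp fun x hx => xq_zero c ((hz x).1 hx), ?_,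
    not_extends hn hc⟩
  refine
    { Z_closed := origin_closed
      Z_nowhere_dense := origin_interior
      Z_periodic := fun x v => ?_
      A_smooth := fun j => contDiffOn_const
      A_periodic := fun j x v => rfl
      smooth := fun a b => (contDiff_iff_contDiffAt.2 fun x => sm_mk _ hq x a b).contDiffOn
      periodic := fun x v => by simp only [sp, hp x v]
      norm_one := ?_
      dirac_zero := fun x hx => con_dirac hn hq fun h => hx ((hz x).1 h)
      mu_zero := fun x _ => ?_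
      norm_extends := ⟨fun x => √(nsq (sp n q x)), hcont.sqrt, fun x v => by
        simp only [sp, hp x v], fun x _ => rfl, fun x => ?_⟩ }
  · show ((x + fun j => (v j : ℝ)) ∈ origin) = (x ∈ origin)
    rw [← hz, ← hz, hp x v]
  · simp only [hns]
    rw [← hc2, hI0, ← integral_const_mul]
    refine integral_congr_ae (Eventually.of_forall fun x => ?_)
    show 2 * ∑ i, (c • q0 x) i ^ 2 = c ^ 2 * (2 * ∑ i, q0 x i ^ 2)
    rw [sum_smul]
    ring
  · rw [hns, sp, mk_incl_mul hn, mk_mul_conj, sub_eq_zero]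
    congr 2
    ring
  · show √(nsq (sp n q x)) = 0 ↔ x ∈ origin
    rw [hns, Real.sqrt_eq_zero (mul_nonneg (by norm_num)
      (Finset.sum_nonneg fun i _ => sq_nonneg _)), ← hz]
    simp

end Pool.Agent.Results.MP_92a303_gt.PointBlowUpSet
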